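import Pool.Agent.H11.NY.Targets

/-!
# Module A1 of the board ny_modules
-/

set_option autoImplicit false
set_option linter.unusedVariables false
set_option linter.unusedSectionVars false

open Equiv (Perm)

namespace Pool.Agent.H12.NY.A1

open Pool.Agent.H11.NY

variable {L K V : Type} [Group L] [Field K] [AddCommGroup V] [Module K V]

/-- joint eigenspaces -/
def WS (ρ : L →* Module.End K V) (M : Subgroup L) (χ : M → K) : Submodule K V where
  carrier := {v | ∀ x : M, ρ x v = χ x • v}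
  add_mem' := by
    intro u v hu hv x
    rw [map_add, hu x, hv x, smul_add]
  zero_mem' := by
    intro x
    rw [map_zero, smul_zero]
  smul_mem' := by
    intro c v hv x
    rw [map_smul, hv x, smul_comm]

theorem mem_WS {ρ : L →* Module.End K V} {M : Subgroup L} {χ : M → K} {v : V} :
    v ∈ WS ρ M χ ↔ ∀ x : M, ρ x v = χ x • v := Iff.rfl

theorem indep (ρ : L →* Module.End K V) (M : Subgroup L)
    (hc : ∀ x ∈ M, ∀ y ∈ M, ρ x * ρ y = ρ y * ρ x) : iSupIndep (WS ρ M) := by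
  have h1 := Module.End.independent_iInf_maxGenEigenspace_of_forall_mapsTo
    (fun x : M => ρ x) (by
      intro i j φ
      apply Module.End.mapsTo_maxGenEigenspace_of_comm
      exact hc _ j.2 _ i.2)
  refine h1.mono ?_
  intro χ v hv
  rw [Submodule.mem_iInf]
  intro x
  have h2 : v ∈ Module.End.eigenspace (ρ x) (χ x) := by
    rw [Module.End.mem_eigenspace_iff]
    exact hv x
  exact Module.End.eigenspace_le_maxGenEigenspace h2

theorem exists_joint [IsAlgClosed K] [Module.Finite K V] (ρ : L →* Module.End K V)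
    (M : Subgroup L) (hne : ∃ v : V, v ≠ 0)
    (hc : ∀ x ∈ M, ∀ y ∈ M, ρ x * ρ y = ρ y * ρ x) : ∃ χ : M → K, WS ρ M χ ≠ ⊥ := by
  obtain ⟨v₀, hv₀⟩ := hne
  let S : Set (Submodule K V) := {N | N ≠ ⊥ ∧ ∀ x ∈ M, ∀ v ∈ N, ρ x v ∈ N}
  have hS : S.Nonempty := by
    refine ⟨⊤, ?_, fun x hx v hv => Submodule.mem_top⟩
    intro h
    apply hv₀
    have : v₀ ∈ (⊤ : Submodule K V) := Submodule.mem_top
    rw [h] at this
    exact (Submodule.mem_bot K).mp this
  obtain ⟨N, hN, hmin⟩ := WellFounded.has_min (wellFounded_lt (α := Submodule K V)) S hS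
  obtain ⟨hN0, hNM⟩ := hN
  have key : ∀ x : M, ∃ c : K, ∀ v ∈ N, ρ x v = c • v := by
    intro x
    have : Nontrivial N := Submodule.nontrivial_iff_ne_bot.mpr hN0
    obtain ⟨c, hcc⟩ := Module.End.exists_eigenvalue ((ρ x).restrict (hNM x x.2) : Module.End K N)
    obtain ⟨w, hw⟩ := hcc.exists_hasEigenvector
    have hw1 : ρ x w.1 = c • w.1 := by
      have := hw.apply_eq_smul
      have h2 := congrArg Subtype.val this
      simpa using h2
    have hw0 : w.1 ≠ 0 := fun h => hw.2 (Subtype.ext h)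
    have hN' : N ⊓ Module.End.eigenspace (ρ x) c ∈ S := by
      refine ⟨?_, ?_⟩
      · intro h
        have : w.1 ∈ N ⊓ Module.End.eigenspace (ρ x) c :=
          ⟨w.2, Module.End.mem_eigenspace_iff.mpr hw1⟩
        rw [h] at this
        exact hw0 ((Submodule.mem_bot K).mp this)
      · intro y hy v hv
        refine ⟨hNM y hy v hv.1, ?_⟩
        rw [SetLike.mem_coe, Module.End.mem_eigenspace_iff]
        have h2 : ρ x v = c • v := Module.End.mem_eigenspace_iff.mp hv.2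
        have h3 : (ρ x * ρ y) v = (ρ y * ρ x) v := by rw [hc x x.2 y hy]
        rw [Module.End.mul_apply, Module.End.mul_apply, h2, map_smul] at h3
        exact h3
    have h4 := hmin _ hN'
    have h5 : N ⊓ Module.End.eigenspace (ρ x) c = N := by
      by_contra hne
      exact h4 (lt_of_le_of_ne inf_le_left hne)
    refine ⟨c, fun v hv => ?_⟩
    rw [← h5] at hv
    exact Module.End.mem_eigenspace_iff.mp hv.2
  choose χ hχ using key
  refine ⟨χ, ?_⟩
  intro h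
  apply hN0
  rw [eq_bot_iff, ← h]
  intro v hv x
  exact hχ x v hv

/-- the conjugation action on functions on a normal subgroup -/
def act (M : Subgroup L) [M.Normal] (y : L) (χ : M → K) : M → K :=
  fun x => χ (MulAut.conjNormal y⁻¹ x)

theorem act_one (M : Subgroup L) [M.Normal] (χ : M → K) : act M 1 χ = χ := by
  funext x
  simp [act]

theorem act_mul (M : Subgroup L) [M.Normal] (y z : L) (χ : M → K) :
    act M (y * z) χ = act M y (act M z χ) := by
  funext x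
  simp only [act]
  congr 1
  apply Subtype.ext
  simp [mul_assoc]

theorem act_mem (ρ : L →* Module.End K V) (M : Subgroup L) [M.Normal] (y : L) (χ : M → K) {v : V}
    (hv : v ∈ WS ρ M χ) : ρ y v ∈ WS ρ M (act M y χ) := by
  intro x
  have h1 : (x : L) * y = y * (y⁻¹ * x * y) := by group
  have h2 : ρ (x : L) (ρ y v) = ρ y (ρ (y⁻¹ * x * y) v) := by
    rw [← Module.End.mul_apply, ← Module.End.mul_apply, ← map_mul, ← map_mul, h1]
  have h3 := hv (MulAut.conjNormal y⁻¹ x)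
  rw [MulAut.conjNormal_apply, inv_inv] at h3
  rw [h2, h3, map_smul]
  rfl

theorem rho_inv (ρ : L →* Module.End K V) (y : L) (v : V) : ρ y⁻¹ (ρ y v) = v := by
  rw [← Module.End.mul_apply, ← map_mul, inv_mul_cancel, map_one, Module.End.one_apply]

theorem act_ne (ρ : L →* Module.End K V) (M : Subgroup L) [M.Normal] (y : L) (χ : M → K)
    (h : WS ρ M χ ≠ ⊥) : WS ρ M (act M y χ) ≠ ⊥ := by
  obtain ⟨v, hv, hv0⟩ := (Submodule.ne_bot_iff _).mp h
  rw [Submodule.ne_bot_iff]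
  refine ⟨ρ y v, act_mem ρ M y χ hv, ?_⟩
  intro h0
  apply hv0
  rw [← rho_inv ρ y v, h0, map_zero]

theorem orbit_top {ρ : L →* Module.End K V} (hirr : Irr ρ) (M : Subgroup L) [M.Normal]
    (P : Set (M → K)) (hP : ∀ (y : L), ∀ χ ∈ P, act M y χ ∈ P) (hne : ∃ χ ∈ P, WS ρ M χ ≠ ⊥) :
    (⨆ χ ∈ P, WS ρ M χ) = ⊤ := by
  obtain ⟨χ, hχ, hχ0⟩ := hne
  have hinv : ∀ y : L, ∀ w ∈ (⨆ χ ∈ P, WS ρ M χ), ρ y w ∈ (⨆ χ ∈ P, WS ρ M χ) := by
    intro y w hw
    have hle : (⨆ χ ∈ P, WS ρ M χ) ≤ (⨆ χ ∈ P, WS ρ M χ).comap (ρ y) := by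
      refine iSup₂_le ?_
      intro μ hμ v hv
      rw [Submodule.mem_comap]
      exact (le_iSup₂_of_le (f := fun χ (_ : χ ∈ P) => WS ρ M χ) (act M y μ) (hP y μ hμ) le_rfl)
        (act_mem ρ M y μ hv)
    exact hle hw
  rcases hirr.2 (⨆ χ ∈ P, WS ρ M χ) hinv with h | h
  · exfalso
    apply hχ0
    rw [eq_bot_iff, ← h]
    exact le_iSup₂_of_le χ hχ le_rfl
  · exact h

theorem pf_a1 : T_A1 := by
  intro L _ _ K V _ _ _ _ _ ρ hirr M hM hc hns
  have hind := indep ρ M hc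
  obtain ⟨χ₀, hχ₀⟩ := exists_joint ρ M hirr.1 hc
  have hfin : Finite {χ : M → K // WS ρ M χ ≠ ⊥} :=
    WellFoundedGT.finite_ne_bot_of_iSupIndep hind
  let A : MulAction L {χ : M → K // WS ρ M χ ≠ ⊥} :=
    { smul := fun y χ => ⟨act M y χ.1, act_ne ρ M y χ.1 χ.2⟩
      one_smul := fun χ => Subtype.ext (act_one M χ.1)
      mul_smul := fun y z χ => Subtype.ext (act_mul M y z χ.1) }
  refine ⟨{χ : M → K // WS ρ M χ ≠ ⊥}, Fintype.ofFinite _, Classical.decEq _, A,
    fun χ => WS ρ M χ.1, ?_, ?_, ?_, fun χ => χ.2, ?_, ?_⟩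
  · exact hind.comp Subtype.val_injective
  · have h1 := orbit_top hirr M {χ : M → K | WS ρ M χ ≠ ⊥} (fun y χ hχ => act_ne ρ M y χ hχ)
      ⟨χ₀, hχ₀, hχ₀⟩
    rw [eq_top_iff, ← h1]
    refine iSup₂_le ?_
    intro χ hχ
    exact le_iSup (fun χ : {χ : M → K // WS ρ M χ ≠ ⊥} => WS ρ M χ.1) ⟨χ, hχ⟩
  · intro y χ w hw
    exact act_mem ρ M y χ.1 hw
  · refine ⟨?_⟩
    intro χ μ
    by_contra hcon
    push Not at hcon
    have h1 := orbit_top hirr M {ν : M → K | ∃ y : L, act M y χ.1 = ν} (by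
      rintro y _ ⟨z, rfl⟩
      exact ⟨y * z, act_mul M y z χ.1⟩) ⟨χ.1, ⟨1, act_one M χ.1⟩, χ.2⟩
    have h2 : (⨆ ν ∈ {ν : M → K | ∃ y : L, act M y χ.1 = ν}, WS ρ M ν) ≤
        ⨆ ν, ⨆ (_ : ν ≠ μ.1), WS ρ M ν := by
      refine iSup₂_le ?_
      rintro ν ⟨y, rfl⟩
      refine le_iSup₂_of_le (act M y χ.1) ?_ le_rfl
      intro h
      exact hcon y (Subtype.ext h)
    rw [h1] at h2
    have h3 := hind μ.1
    rw [top_le_iff.mp h2, disjoint_top] at h3
    exact μ.2 h3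
  · by_contra hcon
    rw [not_nontrivial_iff_subsingleton] at hcon
    apply hns
    have h1 := orbit_top hirr M {χ : M → K | WS ρ M χ ≠ ⊥} (fun y χ hχ => act_ne ρ M y χ hχ)
      ⟨χ₀, hχ₀, hχ₀⟩
    have h2 : (⨆ χ ∈ {χ : M → K | WS ρ M χ ≠ ⊥}, WS ρ M χ) ≤ WS ρ M χ₀ := by
      refine iSup₂_le ?_
      intro χ hχ
      have h0 := Subsingleton.elim (⟨χ, hχ⟩ : {χ : M → K // WS ρ M χ ≠ ⊥}) ⟨χ₀, hχ₀⟩
      have h00 : χ = χ₀ := congrArg Subtype.val h0
      rw [h00]
    rw [h1] at h2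
    intro x hx
    refine ⟨χ₀ ⟨x, hx⟩, ?_⟩
    intro v
    exact (h2 (Submodule.mem_top : v ∈ ⊤)) ⟨x, hx⟩

end Pool.Agent.H12.NY.A1
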