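import Pool.Agent.H11.NY.Targets

/-!
# Module INT of the board ny_modules
-/

set_option autoImplicit false
set_option linter.unusedVariables false
set_option linter.unusedSectionVars false

open Equiv (Perm)

namespace Pool.Agent.H12.NY.INT

open Pool.Agent.H11.NY

variable {Ω : Type} [Fintype Ω] [DecidableEq Ω]

theorem unique_kappa {q : ℕ} (hq : q.Prime) {a h : Perm Ω} (haq : a ^ q = 1) {α : Ω}
    (hα : a α ≠ α) {k l : ℕ} (hk : k < q) (hl : l < q) (h1 : (h * a ^ k) α = α)
    (h2 : (h * a ^ l) α = α) : k = l := by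
  have key : ∀ i j : ℕ, i < j → j < q → (h * a ^ i) α = α → (h * a ^ j) α = α → False := by
    intro i j hij hj e1 e2
    have e3 : (a ^ i) α = (a ^ j) α := by
      apply h.injective
      rw [← Equiv.Perm.mul_apply, ← Equiv.Perm.mul_apply, e1, e2]
    obtain ⟨d, rfl⟩ := Nat.exists_eq_add_of_lt hij
    have e4 : (a ^ (d + 1)) α = α := by
      apply (a ^ i).injective
      rw [← Equiv.Perm.mul_apply, ← pow_add, e3]
      rfl
    have hcop : Nat.Coprime (d + 1) q := by
      apply Nat.Coprime.symm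
      rw [hq.coprime_iff_not_dvd]
      intro hdvd
      have := Nat.le_of_dvd (by omega) hdvd
      omega
    have hmem : a ∈ MulAction.stabilizer (Perm Ω) α := by
      have h5 : a ^ (d + 1) ∈ MulAction.stabilizer (Perm Ω) α := by
        rw [MulAction.mem_stabilizer_iff]
        exact e4
      have h6 : a ^ q ∈ MulAction.stabilizer (Perm Ω) α := by
        rw [haq]
        exact Subgroup.one_mem _
      have hb := Nat.gcd_eq_gcd_ab (d + 1) q
      rw [hcop] at hb
      have h7 : a = (a ^ (d + 1)) ^ (Nat.gcdA (d + 1) q) * (a ^ q) ^ (Nat.gcdB (d + 1) q) := by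
        rw [← zpow_natCast a (d + 1), ← zpow_natCast a q, ← zpow_mul, ← zpow_mul, ← zpow_add, ← hb]
        simp
      rw [h7]
      exact Subgroup.mul_mem _ (Subgroup.zpow_mem _ h5 _) (Subgroup.zpow_mem _ h6 _)
    rw [MulAction.mem_stabilizer_iff] at hmem
    exact hα hmem
  rcases lt_trichotomy k l with hlt | heq | hgt
  · exact (key k l hlt hl h1 h2).elim
  · exact heq
  · exact (key l k hgt hk h2 h1).elim

/-- an even permutation sending `α`, `β` into `S` and the rest of a small set outside `S` -/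
theorem placement (hPLA : T_PLA) (α β : Ω) (hαβ : α ≠ β) (X : Finset Ω) (S : Finset Ω)
    (hS : 2 ≤ S.card) (hX : X.card ≤ (Sᶜ).card) (hΩ : X.card + 4 ≤ Fintype.card Ω) :
    ∃ w ∈ alternatingGroup Ω, w α ∈ S ∧ w β ∈ S ∧ ∀ x ∈ X, x ≠ α → x ≠ β → w x ∉ S := by
  obtain ⟨ρ₁, h1, ρ₂, h2, h12⟩ := Finset.one_lt_card.mp (by omega : 1 < S.card)
  obtain ⟨F⟩ : Nonempty (X ↪ (Sᶜ : Finset Ω)) := by
    apply Function.Embedding.nonempty_of_card_le
    rw [Fintype.card_coe, Fintype.card_coe]
    exact hX
  set Y : Finset Ω := insert α (insert β X) with hY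
  have hYc : Y.card ≤ X.card + 2 := by
    have e1 := Finset.card_insert_le α (insert β X)
    have e2 := Finset.card_insert_le β X
    rw [hY]
    omega
  have hmem : ∀ y : Y, y.1 ≠ α → y.1 ≠ β → y.1 ∈ X := by
    intro y hy1 hy2
    have h0 : y.1 ∈ insert α (insert β X) := y.2
    rw [Finset.mem_insert, Finset.mem_insert] at h0
    rcases h0 with h | h | h
    · exact absurd h hy1
    · exact absurd h hy2
    · exact h
  let g : Y → Ω := fun y => if hy1 : y.1 = α then ρ₁ else if hy2 : y.1 = β then ρ₂ else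
    (F ⟨y.1, hmem y hy1 hy2⟩).1
  have hFS : ∀ x : X, (F x).1 ∉ S := fun x => Finset.mem_compl.mp (F x).2
  have hg : Function.Injective g := by
    intro y z hyz
    by_cases a1 : y.1 = α
    · by_cases b1 : z.1 = α
      · exact Subtype.ext (a1.trans b1.symm)
      · by_cases b2 : z.1 = β
        · simp only [g, a1, b2, dif_pos] at hyz
          simp only [dif_neg hαβ.symm] at hyz
          exact absurd hyz h12
        · simp only [g, a1, b1, b2, dif_pos, dif_neg, not_false_eq_true] at hyz
          exact absurd (hyz ▸ h1) (hFS _)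
    · by_cases a2 : y.1 = β
      · by_cases b1 : z.1 = α
        · simp only [g, a2, b1, dif_pos] at hyz
          simp only [dif_neg hαβ.symm] at hyz
          exact absurd hyz.symm h12
        · by_cases b2 : z.1 = β
          · exact Subtype.ext (a2.trans b2.symm)
          · simp only [g, a2, b1, b2, dif_pos, dif_neg, not_false_eq_true, hαβ.symm] at hyz
            exact absurd (hyz ▸ h2) (hFS _)
      · by_cases b1 : z.1 = α
        · simp only [g, a1, a2, b1, dif_pos, dif_neg, not_false_eq_true] at hyz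
          exact absurd (hyz.symm ▸ h1) (hFS _)
        · by_cases b2 : z.1 = β
          · simp only [g, a1, a2, b2, dif_pos, dif_neg, not_false_eq_true, hαβ.symm] at hyz
            exact absurd (hyz.symm ▸ h2) (hFS _)
          · simp only [g, a1, a2, b1, b2, dif_neg, not_false_eq_true] at hyz
            have := F.injective (Subtype.ext hyz)
            simpa using this
  obtain ⟨w, hw, hwfg⟩ := hPLA Ω Y ⟨Subtype.val, Subtype.val_injective⟩ ⟨g, hg⟩ (by
    rw [Fintype.card_coe]; omega)
  refine ⟨w, hw, ?_, ?_, ?_⟩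
  · have := hwfg ⟨α, by simp [hY]⟩
    simp only [Function.Embedding.coeFn_mk, g, dif_pos] at this
    rw [this]; exact h1
  · have := hwfg ⟨β, by simp [hY]⟩
    simp only [Function.Embedding.coeFn_mk, g, dif_pos, dif_neg hαβ.symm] at this
    rw [this]; exact h2
  · intro x hx hx1 hx2
    have := hwfg ⟨x, by simp [hY, hx]⟩
    simp only [Function.Embedding.coeFn_mk, g, dif_neg hx1, dif_neg hx2] at this
    rw [this]
    exact hFS _

theorem core (hPLA : T_PLA) {q : ℕ} {a h : Perm Ω} {U : Subgroup (Perm Ω)} (hT : TCond q a h U)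
    (α β : Ω) (hαβ : α ≠ β) (haα : a α ≠ α) (haβ : a α ≠ β)
    (hmove : ∀ κ < q, (h * a ^ κ) α ≠ α ∨ (h * a ^ κ) β ≠ β)
    (h3 : ∀ κ < q, (h * a ^ κ) α ≠ β) (h4 : ∀ κ < q, (h * a ^ κ) β ≠ α) (S : Finset Ω)
    (hU : ∀ u ∈ U, ∀ x ∈ S, u x ∈ S) (hS : 2 ≤ S.card) (hSc : 2 * q + 1 ≤ (Sᶜ).card)
    (hΩ : 2 * q + 5 ≤ Fintype.card Ω) : False := by
  set X : Finset Ω := insert (a α) ((Finset.range q).image (fun κ => (h * a ^ κ) α) ∪
    (Finset.range q).image (fun κ => (h * a ^ κ) β)) with hX
  have hXc : X.card ≤ 2 * q + 1 := by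
    have e1 := Finset.card_insert_le (a α) ((Finset.range q).image (fun κ => (h * a ^ κ) α) ∪
      (Finset.range q).image (fun κ => (h * a ^ κ) β))
    have e2 := Finset.card_union_le ((Finset.range q).image (fun κ => (h * a ^ κ) α))
      ((Finset.range q).image (fun κ => (h * a ^ κ) β))
    have e3 := Finset.card_image_le (s := Finset.range q) (f := fun κ => (h * a ^ κ) α)
    have e4 := Finset.card_image_le (s := Finset.range q) (f := fun κ => (h * a ^ κ) β)
    rw [Finset.card_range] at e3 e4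
    rw [hX]
    omega
  obtain ⟨w, hw, hwα, hwβ, hwX⟩ := placement hPLA α β hαβ X S hS (by omega) (by omega)
  have hnot : ∀ t : Perm Ω, ∀ x : Ω, w x ∈ S → w (t x) ∉ S → w * t * w⁻¹ ∉ U := by
    intro t x hx htx hmem
    apply htx
    have := hU _ hmem _ hx
    simpa [Equiv.Perm.mul_apply] using this
  rcases hT w hw with h0 | ⟨κ, hκ, h0⟩
  · refine hnot a α hwα (hwX _ ?_ haα haβ) h0
    rw [hX]; exact Finset.mem_insert_self _ _
  · rcases hmove κ hκ with hm | hm
    · refine hnot (h * a ^ κ) α hwα (hwX _ ?_ hm (h3 κ hκ)) h0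
      rw [hX]
      refine Finset.mem_insert_of_mem (Finset.mem_union_left _ ?_)
      exact Finset.mem_image.mpr ⟨κ, Finset.mem_range.mpr hκ, rfl⟩
    · refine hnot (h * a ^ κ) β hwβ (hwX _ ?_ (h4 κ hκ) hm) h0
      rw [hX]
      refine Finset.mem_insert_of_mem (Finset.mem_union_right _ ?_)
      exact Finset.mem_image.mpr ⟨κ, Finset.mem_range.mpr hκ, rfl⟩

theorem pf_int : T_SEL → T_PLA → T_INT := by
  intro hSEL hPLA e
  obtain ⟨B, hB⟩ := hSEL e (e + 1)
  refine ⟨max B (4 * e + 10), ?_⟩
  intro Ω _ _ q s a h hLP U hT S hU hS hSc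
  obtain ⟨hq, hqe, hs, hse, haq, hhs, hcomm, hsa, hsh⟩ := hLP
  have hB1 : B ≤ max B (4 * e + 10) := le_max_left _ _
  have hB2 : 4 * e + 10 ≤ max B (4 * e + 10) := le_max_right _ _
  obtain ⟨ω, hω1, hω2⟩ := hB Ω a h q s hq.pos hqe hs hse haq hhs hcomm
    (fun i : Fin (e + 1) => if i.val < q then h * a ^ i.val else a) (by
      intro i
      by_cases hi : i.val < q
      · simp only [hi, if_true]
        exact le_trans hB1 (hsh _ hi)
      · simp only [hi, if_false]
        exact le_trans hB1 hsa)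
  have hlast : ¬ (Fin.last e).val < q := by simp [Fin.val_last]; omega
  have hα : a (ω (Fin.last e)) ≠ ω (Fin.last e) := by
    have := hω1 (Fin.last e)
    simpa only [hlast, if_false] using this
  have hcard : 4 * e + 10 ≤ Fintype.card Ω :=
    le_trans hB2 (le_trans hsa (Finset.card_le_univ _))
  have hcommk : ∀ κ : ℕ, h * a ^ κ = a ^ κ * h ^ 1 := by
    intro κ
    rw [pow_one]
    exact ((show Commute a h from hcomm).pow_left κ).eq.symm
  have hmv : ∃ β : Fin (e + 1), β ≠ Fin.last e ∧ ∀ κ < q,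
      (h * a ^ κ) (ω (Fin.last e)) ≠ ω (Fin.last e) ∨ (h * a ^ κ) (ω β) ≠ ω β := by
    by_cases hex : ∃ κ < q, (h * a ^ κ) (ω (Fin.last e)) = ω (Fin.last e)
    · obtain ⟨κ, hκ, hfix⟩ := hex
      refine ⟨⟨κ, by omega⟩, ?_, ?_⟩
      · intro heq
        have := congrArg Fin.val heq
        simp only [Fin.val_last] at this
        omega
      · intro l hl
        by_cases hkl : (h * a ^ l) (ω (Fin.last e)) = ω (Fin.last e)
        · right
          have : κ = l := unique_kappa hq haq hα hκ hl hfix hkl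
          subst this
          have := hω1 ⟨κ, by omega⟩
          simpa only [hκ, if_true] using this
        · left; exact hkl
    · push Not at hex
      refine ⟨⟨0, by omega⟩, ?_, fun κ hκ => Or.inl (hex κ hκ)⟩
      intro heq
      have := congrArg Fin.val heq
      simp only [Fin.val_last] at this
      have := hq.two_le
      omega
  obtain ⟨β, hβ, hmove⟩ := hmv
  have hc : S.card + (Sᶜ).card = Fintype.card Ω := by
    rw [Finset.card_compl]
    have := Finset.card_le_univ S
    omega
  have hUc : ∀ u ∈ U, ∀ x ∈ Sᶜ, u x ∈ Sᶜ := by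
    intro u hu x hx
    rw [Finset.mem_compl] at hx ⊢
    intro hux
    apply hx
    have := hU u⁻¹ (U.inv_mem hu) _ hux
    simpa using this
  have a1 : ω (Fin.last e) ≠ ω β := by
    intro heq
    have := hω2 β (Fin.last e) hβ 0 0
    apply this
    simpa using heq
  have a2 : a (ω (Fin.last e)) ≠ ω β := by
    have := hω2 β (Fin.last e) hβ 1 0
    simpa using this
  have a3 : ∀ κ < q, (h * a ^ κ) (ω (Fin.last e)) ≠ ω β := by
    intro κ hκ
    rw [hcommk]
    exact hω2 β (Fin.last e) hβ κ 1
  have a4 : ∀ κ < q, (h * a ^ κ) (ω β) ≠ ω (Fin.last e) := by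
    intro κ hκ
    rw [hcommk]
    exact hω2 (Fin.last e) β hβ.symm κ 1
  by_cases hbig : 2 * e + 5 ≤ (Sᶜ).card
  · exact core hPLA hT _ _ a1 hα a2 hmove a3 a4 S hU hS (by omega) (by omega)
  · exact core hPLA hT _ _ a1 hα a2 hmove a3 a4 Sᶜ hUc (by omega) (by rw [compl_compl]; omega)
      (by omega)

end Pool.Agent.H12.NY.INT
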